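import Mathlib

/-! # The lowest terms of `x y ^ n + 1` -/

set_option autoImplicit false

namespace Pool.Agent.K3h2.PA

/-- one of the two terms: `c = c' g`, `u ^ n = u' g` with `c'`, `u'` coprime; `u' = U ^ n t` with
`u = d U`, `d ∣ c` and `t` small -/
theorem split (n : ℕ) (c u : ℤ) (hc : c ≠ 0) (hu : u ≠ 0) :
    ∃ g c' t U d : ℤ, 0 < g ∧ 0 < d ∧ c = c' * g ∧ u ^ n = (U ^ n * t) * g ∧
      IsCoprime c' (U ^ n * t) ∧ u = d * U ∧ d ≤ |c| ∧ |t| ≤ |c| ^ n ∧ |c'| ≤ |c| ∧ g ≤ |c| ∧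
      c' ≠ 0 ∧ t ≠ 0 := by
  have hun : u ^ n ≠ 0 := pow_ne_zero n hu
  have hg0 : 0 < Int.gcd c (u ^ n) := Int.gcd_pos_of_ne_zero_left _ hc
  obtain ⟨c', u', hcop, hc', hu'⟩ := Int.exists_gcd_one hg0
  have hd0 : 0 < Int.gcd u c := Int.gcd_pos_of_ne_zero_left _ hu
  obtain ⟨U, c'', -, hU, hc''⟩ := Int.exists_gcd_one hd0
  obtain ⟨g, hg⟩ : ∃ g : ℤ, g = (Int.gcd c (u ^ n) : ℤ) := ⟨_, rfl⟩
  obtain ⟨d, hd⟩ : ∃ d : ℤ, d = (Int.gcd u c : ℤ) := ⟨_, rfl⟩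
  rw [← hg] at hc' hu'
  rw [← hd] at hU hc''
  have hgpos : 0 < g := by rw [hg]; exact_mod_cast hg0
  have hdpos : 0 < d := by rw [hd]; exact_mod_cast hd0
  have hdvd : g ∣ d ^ n := by
    rw [hg, hd, Int.gcd_comm u c]
    have h1 : gcd c (u ^ n) ∣ gcd c u ^ n := gcd_pow_right_dvd_pow_gcd
    rw [← Int.coe_gcd, ← Int.coe_gcd] at h1
    exact h1
  obtain ⟨t, ht⟩ := hdvd
  have hu'' : u' = U ^ n * t := by
    have h1 : u' * g = (U ^ n * t) * g := by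
      rw [← hu']
      conv_lhs => rw [hU]
      rw [mul_pow, ht]
      ring
    exact mul_right_cancel₀ hgpos.ne' h1
  have hdc : d ≤ |c| := by
    have h1 : d ∣ c := ⟨c'', by rw [mul_comm]; exact hc''⟩
    exact Int.le_of_dvd (abs_pos.2 hc) ((dvd_abs _ _).2 h1)
  have hgc : g ≤ |c| := by
    have h1 : g ∣ c := ⟨c', by rw [mul_comm]; exact hc'⟩
    exact Int.le_of_dvd (abs_pos.2 hc) ((dvd_abs _ _).2 h1)
  have hc'0 : c' ≠ 0 := by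
    rintro rfl
    rw [zero_mul] at hc'
    exact hc hc'
  have ht0 : t ≠ 0 := by
    rintro rfl
    rw [mul_zero] at ht
    exact (pow_pos hdpos n).ne' ht
  refine ⟨g, c', t, U, d, hgpos, hdpos, hc', by rw [← hu'']; exact hu', ?_, ?_, hdc, ?_, ?_, hgc,
    hc'0, ht0⟩
  · rw [← hu'']
    exact Int.isCoprime_iff_gcd_eq_one.2 hcop
  · rw [mul_comm]
    exact hU
  · have h1 : |t| * g = d ^ n := by
      rw [← abs_of_pos (pow_pos hdpos n), ht, abs_mul, abs_of_pos hgpos, mul_comm]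
    have h2 : |t| ≤ d ^ n := by
      rw [← h1]
      exact le_mul_of_one_le_right (abs_nonneg _) (by omega)
    exact h2.trans (pow_le_pow_left₀ hdpos.le hdc n)
  · conv_rhs => rw [hc', abs_mul, abs_of_pos hgpos]
    exact le_mul_of_one_le_right (abs_nonneg _) (by omega)

/-- the lowest terms of `(a u ^ n + c v ^ n) / (c v ^ n)` -/
theorem arith (n : ℕ) (a c u v : ℤ) (ha : a ≠ 0) (hc : c ≠ 0) (hu : u ≠ 0) (hv : v ≠ 0)
    (hac : IsCoprime a c) (huv : IsCoprime u v) :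
    ∃ g s0 s1 U V d1 d2 : ℤ, 0 < g ∧ 0 < d1 ∧ 0 < d2 ∧ a * u ^ n = g * (s0 * U ^ n) ∧
      c * v ^ n = g * (s1 * V ^ n) ∧ IsCoprime (s0 * U ^ n) (s1 * V ^ n) ∧ u = d1 * U ∧
      v = d2 * V ∧ d1 ≤ |c| ∧ d2 ≤ |a| ∧ |s0| ≤ |a| * |c| ^ n ∧ |s1| ≤ |c| * |a| ^ n ∧
      g ≤ |a| * |c| ∧ s0 ≠ 0 ∧ s1 ≠ 0 := by
  obtain ⟨g2, c', t2, U, d1, hg2, hd1, hc', hu', hcop2, hU, hd1c, ht2, hcc, hg2c, hc'0, ht20⟩ :=
    split n c u hc hu
  obtain ⟨g1, a', t1, V, d2, hg1, hd2, ha', hv', hcop1, hV, hd2a, ht1, haa, hg1a, ha'0, ht10⟩ :=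
    split n a v ha hv
  refine ⟨g1 * g2, a' * t2, c' * t1, U, V, d1, d2, mul_pos hg1 hg2, hd1, hd2, ?_, ?_, ?_, hU, hV,
    hd1c, hd2a, ?_, ?_, ?_, mul_ne_zero ha'0 ht20, mul_ne_zero hc'0 ht10⟩
  · rw [hu']
    conv_lhs => rw [ha']
    ring
  · rw [hv']
    conv_lhs => rw [hc']
    ring
  · have e1 : a' * t2 * U ^ n = a' * (U ^ n * t2) := by ring
    have e2 : c' * t1 * V ^ n = c' * (V ^ n * t1) := by ring
    rw [e1, e2]
    have k1 : IsCoprime a' c' := by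
      refine hac.of_isCoprime_of_dvd_left ⟨g1, ha'⟩ |>.of_isCoprime_of_dvd_right ⟨g2, hc'⟩
    have k2 : IsCoprime (U ^ n * t2) (V ^ n * t1) :=
      (huv.pow (m := n) (n := n)).of_isCoprime_of_dvd_left ⟨g2, hu'⟩
        |>.of_isCoprime_of_dvd_right ⟨g1, hv'⟩
    exact (IsCoprime.mul_right k1 hcop1).mul_left (IsCoprime.mul_right hcop2.symm k2)
  · rw [abs_mul]
    exact mul_le_mul haa ht2 (abs_nonneg _) (abs_nonneg _)
  · rw [abs_mul]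
    exact mul_le_mul hcc ht1 (abs_nonneg _) (abs_nonneg _)
  · exact mul_le_mul hg1a hg2c hg2.le (abs_nonneg _)

end Pool.Agent.K3h2.PA
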