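import Mathlib
import Pool.Agent.K3h2.PA.Arith
import Pool.Agent.K3h2.LA.Core
import Pool.Agent.R343.LU5

/-! # Philippon's inequality for compressible `y` and arbitrary `x` -/

set_option autoImplicit false

namespace Pool.Agent.K3h2.PA

open Finset Pool.Agent.R343.LT Pool.Agent.K3h2.LA Pool.Agent.TH932.Germs Pool.Agent.TH551.HA

/-- the logarithmic height -/
noncomputable def ht (r : ℚ) : ℝ := Real.log (max |(r.num : ℝ)| (r.den : ℝ))

lemma one_le_max_den (r : ℚ) : (1 : ℝ) ≤ max |(r.num : ℝ)| (r.den : ℝ) :=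
  le_trans (by exact_mod_cast r.pos) (le_max_right _ _)

lemma ht_nonneg (r : ℚ) : 0 ≤ ht r := Real.log_nonneg (one_le_max_den r)

lemma log_num_le (r : ℚ) : Real.log |(r.num : ℝ)| ≤ ht r := by
  rcases eq_or_ne r.num 0 with h | h
  · rw [h]
    simpa using ht_nonneg r
  · exact Real.log_le_log (abs_pos.2 (by exact_mod_cast h)) (le_max_left _ _)

lemma log_den_le (r : ℚ) : Real.log (r.den : ℝ) ≤ ht r :=
  Real.log_le_log (by exact_mod_cast r.pos) (le_max_right _ _)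

/-! ### Sums of products -/

theorem SpR.single {Γ : Subgroup ℚˣ} {k : ℕ} {M : ℝ} {m : ℤ} (hm : |(m : ℝ)| ≤ M) :
    SpR Γ (k + 1) M m := by
  have hM : 0 ≤ M := (abs_nonneg _).trans hm
  refine ⟨fun _ => 1, fun j => if j = 0 then m else 0, fun j => ?_, ?_⟩
  · by_cases h : j = 0
    · simp only [h, if_true]
      exact hm
    · simp only [h, if_false, Int.cast_zero, abs_zero]
      exact hM
  · simp

theorem SpR.succ {Γ : Subgroup ℚˣ} {k : ℕ} {M : ℝ} {y : ℚ} (hM : 0 ≤ M) (h : SpR Γ k M y) :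
    SpR Γ (k + 1) M y := by
  obtain ⟨u, c, hc, hy⟩ := h
  refine ⟨Fin.cons 1 u, Fin.cons 0 c, fun j => ?_, ?_⟩
  · refine Fin.cases ?_ (fun j' => ?_) j
    · simpa using hM
    · simpa using hc j'
  · rw [Fin.sum_univ_succ, hy]
    simp

theorem SpR.mul_int {Γ : Subgroup ℚˣ} {k : ℕ} {M N M' : ℝ} {y : ℚ} {m : ℤ} (h : SpR Γ k M y)
    (hm : |(m : ℝ)| ≤ N) (hM' : N * M ≤ M') : SpR Γ k M' (m * y) := by
  obtain ⟨u, c, hc, hy⟩ := h
  refine ⟨u, fun j => m * c j, fun j => ?_, ?_⟩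
  · push_cast
    rw [abs_mul]
    exact (mul_le_mul hm (hc j) (abs_nonneg _) ((abs_nonneg _).trans hm)).trans hM'
  · rw [hy, Finset.mul_sum]
    refine Finset.sum_congr rfl fun j _ => ?_
    push_cast
    ring

/-! ### The inequality for three terms -/

/-- the indices of the factors: three small ones, the two `n`-th powers, the others -/
abbrev J (r : ℕ) : Type := Fin 3 ⊕ (Fin 2 ⊕ Fin r)

def jX {r : ℕ} (s0 s1 s2 U V : ℤ) (Z : Fin r → ℤ) : J r → ℤ :=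
  Sum.elim ![s0, s1, s2] (Sum.elim ![U, V] Z)

def jT {r : ℕ} : J r → Fin 3 := Sum.elim (fun i => i) (Sum.elim ![0, 1] (fun _ => 2))

def jE {r : ℕ} (n : ℕ) (e : Fin r → ℕ) : J r → ℕ :=
  Sum.elim (fun _ => 1) (Sum.elim (fun _ => n) e)

/-- the inequality for three terms, with a common denominator -/
theorem three (r k n : ℕ) (hn : 1 ≤ n) (e : Fin r → ℕ) (he : ∀ i, 1 ≤ e i) (Γ : Subgroup ℚˣ)
    (hΓ : Γ.FG) (ε : ℝ) (hε : 0 < ε) :
    ∃ C : ℝ, ∀ M : ℝ, 1 ≤ M → ∀ D : ℕ, 0 < D → (D : ℝ) ≤ M →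
      ∀ (s0 s1 s2 U V w : ℤ) (Z : Fin r → ℤ),
      (∀ j, SpR Γ k M (D * (jX s0 s1 s2 U V Z j : ℚ))) → (∃ g ∈ Γ, (w : ℚ) = (g : ℚ)) →
      s0 * U ^ n ≠ 0 → s1 * V ^ n ≠ 0 → w * (s2 * ∏ i, Z i ^ e i) ≠ 0 →
      s0 * U ^ n + s1 * V ^ n + w * (s2 * ∏ i, Z i ^ e i) = 0 →
      IsCoprime (s0 * U ^ n) (s1 * V ^ n) →
      (1 - ε) * Real.log |((s0 * U ^ n : ℤ) : ℝ)| ≤ C * (1 + Real.log M) +
        Real.log (∏ j, |(jX s0 s1 s2 U V Z j : ℝ)|) ∧
      (1 - ε) * Real.log |((s1 * V ^ n : ℤ) : ℝ)| ≤ C * (1 + Real.log M) +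
        Real.log (∏ j, |(jX s0 s1 s2 U V Z j : ℝ)|) := by
  classical
  let EQ : Fin (Fintype.card (J r)) ≃ J r := (Fintype.equivFin (J r)).symm
  have hE : ∀ i, 1 ≤ jE n e (EQ i) := by
    intro i
    rcases EQ i with j | j | j
    · exact le_rfl
    · exact hn
    · exact he j
  obtain ⟨C, hC⟩ := nt_logD ncF csF hbF fwF (Fintype.card (J r)) k 3 (fun i => jT (EQ i))
    (fun i => jE n e (EQ i)) hE Γ hΓ 1
    (fun A => ∑ σ, A σ = 0 ∧ ∀ σ σ', σ ≠ σ' → IsCoprime (A σ) (A σ'))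
    (by
      intro L hL x A hcir hA0 hx0 hG ε hε
      have h := germStrong _ x A hcir hA0 hx0 (fun t => (hG t).1)
        (fun σ σ' t h => (hG t).2 σ σ' h) ε hε
      simpa only [pow_one] using h) ε hε
  refine ⟨C, ?_⟩
  intro M hM D hD hDM s0 s1 s2 U V w Z hsp hw h0 h1 h2 hsum hcop
  choose u c hc hy using hsp
  set A : Fin 3 → ℤ := ![s0 * U ^ n, s1 * V ^ n, w * (s2 * ∏ i, Z i ^ e i)] with hA
  have hprod : ∀ σ : Fin 3, ∏ i with jT (EQ i) = σ, jX s0 s1 s2 U V Z (EQ i) ^ jE n e (EQ i) =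
      ![s0 * U ^ n, s1 * V ^ n, s2 * ∏ i, Z i ^ e i] σ := by
    intro σ
    rw [Finset.prod_filter, Equiv.prod_comp EQ
      (fun j => if jT j = σ then jX s0 s1 s2 U V Z j ^ jE n e j else 1), Fintype.prod_sum_type,
      Fintype.prod_sum_type, Fin.prod_univ_three, Fin.prod_univ_two]
    fin_cases σ
    · simp [jT, jX, jE]
    · simp [jT, jX, jE]
    · simp [jT, jX, jE]
  have hAw : ∀ σ, A σ = (![1, 1, w] : Fin 3 → ℤ) σ * ∏ i with jT (EQ i) = σ,
      jX s0 s1 s2 U V Z (EQ i) ^ jE n e (EQ i) := by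
    intro σ
    rw [hprod σ, hA]
    fin_cases σ
    · simp
    · simp
    · simp
  have hA0 : ∀ σ, A σ ≠ 0 := by
    intro σ
    fin_cases σ
    · exact h0
    · exact h1
    · exact h2
  have hG : ∑ σ, A σ = 0 ∧ ∀ σ σ', σ ≠ σ' → IsCoprime (A σ) (A σ') := by
    constructor
    · rw [Fin.sum_univ_three]
      exact hsum
    · have e2 : w * (s2 * ∏ i, Z i ^ e i) = -(s0 * U ^ n + s1 * V ^ n) := by linarith
      have k0 : IsCoprime (s0 * U ^ n) (w * (s2 * ∏ i, Z i ^ e i)) := by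
        rw [e2]
        refine IsCoprime.neg_right ?_
        have := hcop.add_mul_left_right 1
        rwa [mul_one, add_comm] at this
      have k1 : IsCoprime (s1 * V ^ n) (w * (s2 * ∏ i, Z i ^ e i)) := by
        rw [e2]
        refine IsCoprime.neg_right ?_
        have := hcop.symm.add_mul_left_right 1
        rwa [mul_one] at this
      intro σ σ' hσ
      fin_cases σ <;> fin_cases σ' <;> first | exact absurd rfl hσ | skip
      · exact hcop
      · exact k0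
      · exact hcop.symm
      · exact k1
      · exact k0.symm
      · exact k1.symm
  have h3 := hC M hM D hD hDM (fun i => u (EQ i)) (fun i => c (EQ i)) (fun i j => hc _ j)
    (fun i => jX s0 s1 s2 U V Z (EQ i)) (fun i => hy (EQ i)) ![1, 1, w] A (fun σ => by
      fin_cases σ
      · exact ⟨1, Γ.one_mem, by simp⟩
      · exact ⟨1, Γ.one_mem, by simp⟩
      · exact hw) hAw hA0 hG
  have h4 : (∏ i, |(jX s0 s1 s2 U V Z (EQ i) : ℝ)| ^ (min (jE n e (EQ i)) (3 - 2))) ^ 1 =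
      ∏ j, |(jX s0 s1 s2 U V Z j : ℝ)| := by
    rw [pow_one, ← Equiv.prod_comp EQ (fun j => |(jX s0 s1 s2 U V Z j : ℝ)|)]
    refine Finset.prod_congr rfl fun i _ => ?_
    rw [min_eq_right (hE i), pow_one]
  rw [h4] at h3
  exact ⟨h3 0, h3 1⟩

end Pool.Agent.K3h2.PA
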