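import Mathlib
import Pool.Agent.K3h2.PA.Core

/-! # The height of a compressible `y` is bounded by the factors of the numerator -/

set_option autoImplicit false

namespace Pool.Agent.K3h2.PA

open Finset Pool.Agent.R343.LT Pool.Agent.K3h2.LA

/-- the data -/
structure Dat (r q : ℕ) where
  x : ℚ
  y : ℚ
  n0 : ℤ
  w : ℤ
  Z : Fin r → ℤ
  W : (Fin 2 ⊕ Fin r) × Fin q → ℤ

/-- the numerator of `x y ^ n + 1` -/
theorem num_eq {n : ℕ} {x y : ℚ} {g s0 s1 U V : ℤ} (hg : 0 < g)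
    (h0 : x.num * y.num ^ n = g * (s0 * U ^ n)) (h1 : (x.den : ℤ) * (y.den : ℤ) ^ n =
      g * (s1 * V ^ n)) (hcop : IsCoprime (s0 * U ^ n) (s1 * V ^ n)) :
    (x * y ^ n + 1).num = s0 * U ^ n + s1 * V ^ n := by
  have hden : 0 < (x.den : ℤ) * (y.den : ℤ) ^ n :=
    mul_pos (by exact_mod_cast x.pos) (pow_pos (by exact_mod_cast y.pos) _)
  have hpos : 0 < s1 * V ^ n := by
    rw [h1] at hden
    exact (mul_pos_iff_of_pos_left hg).1 hden
  have hx : x = x.num / x.den := (Rat.num_div_den x).symm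
  have hy : y = y.num / y.den := (Rat.num_div_den y).symm
  have h0' : (x.num : ℚ) * (y.num : ℚ) ^ n = g * (s0 * U ^ n) := by exact_mod_cast h0
  have h1' : (x.den : ℚ) * (y.den : ℚ) ^ n = g * (s1 * V ^ n) := by exact_mod_cast h1
  have hg' : (g : ℚ) ≠ 0 := by exact_mod_cast hg.ne'
  have hp' : ((s1 : ℚ) * V ^ n) ≠ 0 := by
    have : ((s1 * V ^ n : ℤ) : ℚ) ≠ 0 := by exact_mod_cast hpos.ne'
    push_cast at this
    exact this
  have h2 : x * y ^ n + 1 = ((s0 * U ^ n + s1 * V ^ n : ℤ) : ℚ) / ((s1 * V ^ n : ℤ) : ℚ) := by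
    have h3 : x * y ^ n = (x.num * y.num ^ n : ℚ) / (x.den * y.den ^ n) := by
      conv_lhs => rw [hx, hy, div_pow, div_mul_div_comm]
    rw [h3, h0', h1']
    push_cast
    rw [mul_div_mul_left _ _ hg', add_div, div_self hp']
  rw [h2]
  refine Rat.num_div_eq_of_coprime hpos ?_
  rw [← Int.isCoprime_iff_nat_coprime]
  have := hcop.add_mul_left_left 1
  rwa [mul_one] at this

/-- the elementary estimates -/
theorem numeric {n L s c1 δ C lN0 lB K1 K2 tZ lM l0 : ℝ} (hn : 3 ≤ n) (hL : 0 ≤ L)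
    (hc1 : 1 ≤ c1) (hδ : c1 * δ ≤ 1 / 16) (hC0 : 0 < C)
    (hC : 16 * (c1 * (3 * n + 4) + (3 * n + 6)) ≤ C) (hC4 : 4 ≤ C) (hCK : 4 * K2 ≤ C)
    (hs : s ≤ 3 * K1 + 3 * (L / C))
    (hK2 : K2 = c1 * (1 + lN0 + δ + lB + 3 * (n + 1) * K1) + 3 * (n + 2) * K1)
    (hZ : 0 ≤ tZ) (hlM : lM ≤ (lN0 + L / C) + (δ * (1 + L) + lB) + (n + 1) * s)
    (h0 : n * L - s ≤ l0) (hl0 : (1 - 1 / (2 * n)) * l0 ≤ c1 * (1 + lM) +
      ((n + 1) * s + 2 * L + tZ)) (hs0 : 0 ≤ s) : L ≤ C * (1 + tZ) := by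
  have e0 : 0 ≤ 1 - 1 / (2 * n) := by
    rw [sub_nonneg, div_le_one (by linarith)]
    linarith
  have e1 : (1 - 1 / (2 * n)) * (n * L - s) ≤ (1 - 1 / (2 * n)) * l0 :=
    mul_le_mul_of_nonneg_left h0 e0
  have e2 : (1 - 1 / (2 * n)) * (n * L - s) = n * L - L / 2 - (1 - 1 / (2 * n)) * s := by
    field_simp
  have e3 : (1 - 1 / (2 * n)) * s ≤ s := by
    have : 1 - 1 / (2 * n) ≤ 1 := by
      have : 0 ≤ 1 / (2 * n) := by positivity
      linarith
    nlinarith
  have e4 : L / 2 ≤ c1 * (1 + lM) + (n + 2) * s + tZ := by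
    have e5 : 3 * L ≤ n * L := mul_le_mul_of_nonneg_right hn hL
    nlinarith
  have e5 : c1 * (1 + lM) ≤ c1 * (1 + ((lN0 + L / C) + (δ * (1 + L) + lB) + (n + 1) * s)) :=
    mul_le_mul_of_nonneg_left (by linarith) (by linarith)
  have e6 : (c1 * (n + 1) + (n + 2)) * s ≤ (c1 * (n + 1) + (n + 2)) * (3 * K1 + 3 * (L / C)) :=
    mul_le_mul_of_nonneg_left hs (by nlinarith)
  have e7 : L / 2 ≤ K2 + tZ + c1 * δ * L + (c1 * (3 * n + 4) + (3 * n + 6)) * (L / C) := by
    rw [hK2]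
    nlinarith
  have e8 : c1 * δ * L ≤ 1 / 16 * L := mul_le_mul_of_nonneg_right hδ hL
  have e9 : (c1 * (3 * n + 4) + (3 * n + 6)) * (L / C) ≤ 1 / 16 * L := by
    have h1 := mul_le_mul_of_nonneg_right hC (div_nonneg hL hC0.le)
    have h2 : C * (L / C) = L := by field_simp
    linarith
  have e10 : L ≤ 4 * K2 + 4 * tZ := by linarith
  have e11 : 4 * tZ ≤ C * tZ := mul_le_mul_of_nonneg_right hC4 hZ
  linarith

/-- **The height of `y`.** -/
theorem height_le (r n : ℕ) (hn : 3 ≤ n) (e : Fin r → ℕ) (he : ∀ i, 1 ≤ e i) (q : ℕ)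
    (b : Fin q → ℕ) (hb : ∀ i, 2 ≤ b i) (z : ℕ) (B : ℤ) (hB : 0 ≤ B) (Γ : Subgroup ℚˣ)
    (hΓ : Γ.FG) (M0 N0 K1 : ℝ) (hM0 : 0 ≤ M0) (hN0 : 0 ≤ N0) (hK1 : 0 ≤ K1) :
    ∃ C : ℝ, ∀ P : Dat r q, P.x ≠ 0 → P.y ≠ 0 → P.x * P.y ^ n + 1 ≠ 0 →
      (∃ g ∈ Γ, (P.w : ℚ) = (g : ℚ)) →
      (P.x * P.y ^ n + 1).num = P.n0 * P.w * ∏ i, P.Z i ^ e i →
      (∀ s, Dec Γ (N0 * Real.exp (ht P.y / max C 1)) (fun i => P.W (s, i))
        (((Sum.elim ![P.y.num, (P.y.den : ℤ)] P.Z : Fin 2 ⊕ Fin r → ℤ) s : ℤ) : ℚ)) →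
      (∀ s, LZWd (b s.2) z B (M0 * (1 + ht P.y)) (P.W s)) →
      ht P.x ≤ K1 + ht P.y / max C 1 → Real.log |(P.n0 : ℝ)| ≤ K1 + ht P.y / max C 1 →
      ht P.y ≤ C * (1 + ∑ i, Real.log |(P.Z i : ℝ)|) := by
  classical
  let Φ : ℝ → Dat r q → Prop := fun C P => P.x ≠ 0 → P.y ≠ 0 → P.x * P.y ^ n + 1 ≠ 0 →
      (∃ g ∈ Γ, (P.w : ℚ) = (g : ℚ)) →
      (P.x * P.y ^ n + 1).num = P.n0 * P.w * ∏ i, P.Z i ^ e i →
      (∀ s, Dec Γ (N0 * Real.exp (ht P.y / max C 1)) (fun i => P.W (s, i))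
        (((Sum.elim ![P.y.num, (P.y.den : ℤ)] P.Z : Fin 2 ⊕ Fin r → ℤ) s : ℤ) : ℚ)) →
      ht P.x ≤ K1 + ht P.y / max C 1 → Real.log |(P.n0 : ℝ)| ≤ K1 + ht P.y / max C 1 →
      ht P.y ≤ C * (1 + ∑ i, Real.log |(P.Z i : ℝ)|)
  have hZ0 : ∀ P : Dat r q, 0 ≤ ∑ i, Real.log |(P.Z i : ℝ)| := fun P =>
    Finset.sum_nonneg fun i _ => log_abs_nonneg _
  have hmono : ∀ (C C' : ℝ) (P : Dat r q), C ≤ C' → Φ C P → Φ C' P := by
    intro C C' P hCC h h1 h2 h3 h4 h5 h6 h7 h8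
    have hdiv : ht P.y / max C' 1 ≤ ht P.y / max C 1 :=
      div_le_div_of_nonneg_left (ht_nonneg _) (lt_of_lt_of_le one_pos (le_max_right _ _))
        (max_le_max hCC le_rfl)
    refine (h h1 h2 h3 h4 h5 (fun s => ?_) (by linarith) (by linarith)).trans ?_
    · obtain ⟨g, c, hg, hc, hy⟩ := h6 s
      exact ⟨g, c, hg, fun i => (hc i).trans
        (mul_le_mul_of_nonneg_left (Real.exp_le_exp.2 hdiv) hN0), hy⟩
    · exact mul_le_mul_of_nonneg_right hCC (by linarith [hZ0 P])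
  obtain ⟨C, _, hC⟩ := compTransferF (𝒳 := Dat r q) (𝒢 := Unit)
    (κ := (Fin 2 ⊕ Fin r) × Fin q) 1 Γ hΓ (fun s _ => b s.2)
    (fun s _ => hb s.2) z B hB M0 hM0 Φ hmono (fun _ _ => True)
    (fun G G' => ⟨(), fun P hP => ⟨trivial, trivial⟩⟩)
    (fun P => ht P.y) (fun P => ht_nonneg _)
    (fun P s => (P.W s : ℚ)) (by
    intro k Γ' hΓ' hle
    have hnR : (3 : ℝ) ≤ n := by exact_mod_cast hn
    obtain ⟨C1, hthree⟩ := three r (q * k + 1) n (by omega) e he Γ' hΓ' (1 / (2 * (n : ℝ)))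
      (by positivity)
    obtain ⟨c1, hc1⟩ : ∃ c1 : ℝ, c1 = max C1 0 + 1 := ⟨_, rfl⟩
    have hc11 : 1 ≤ c1 := by
      rw [hc1]
      linarith [le_max_right C1 0]
    have hC1c : C1 ≤ c1 := by
      rw [hc1]
      linarith [le_max_left C1 0]
    obtain ⟨δ, hδ⟩ : ∃ δ : ℝ, δ = 1 / (16 * c1) := ⟨_, rfl⟩
    have hδ0 : 0 < δ := by
      rw [hδ]
      positivity
    have hδ1 : c1 * δ ≤ 1 / 16 := by
      rw [hδ]
      refine le_of_eq ?_
      field_simp
    obtain ⟨K2, hK2⟩ : ∃ K2 : ℝ, K2 = c1 * (1 + Real.log (max N0 1) + δ + Real.log (B + 1) +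
      3 * ((n : ℝ) + 1) * K1) + 3 * ((n : ℝ) + 2) * K1 := ⟨_, rfl⟩
    obtain ⟨C2, hC2⟩ : ∃ C2 : ℝ, C2 = max (4 * K2)
      (max 4 (16 * (c1 * (3 * n + 4) + (3 * n + 6)))) := ⟨_, rfl⟩
    have hC24 : 4 ≤ C2 := by
      rw [hC2]
      exact (le_max_left _ _).trans (le_max_right _ _)
    have hC2K : 4 * K2 ≤ C2 := by
      rw [hC2]
      exact le_max_left _ _
    have hC2c : 16 * (c1 * (3 * n + 4) + (3 * n + 6)) ≤ C2 := by
      rw [hC2]
      exact (le_max_right _ _).trans (le_max_right _ _)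
    refine ⟨δ, hδ0, C2, (), ?_⟩
    rintro ⟨x, y, n0, w, Z, W⟩ M1 D hM11 hD0 hDM1 hlM1 hsp1 - hx hy hxy hw hnum hdec hhx hln0
    simp only at hx hy hxy hw hnum hdec hhx hln0 hlM1 hsp1
    have hmaxC : max C2 1 = C2 := max_eq_left (by linarith)
    rw [hmaxC] at hdec hhx hln0
    show ht y ≤ C2 * (1 + ∑ i, Real.log |(Z i : ℝ)|)
    obtain ⟨L, hL⟩ : ∃ L : ℝ, L = ht y := ⟨_, rfl⟩
    rw [← hL] at hdec hhx hln0 hlM1 ⊢
    have hL0 : 0 ≤ L := by
      rw [hL]
      exact ht_nonneg _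
    have hC20 : 0 < C2 := by linarith
    -- the integers
    obtain ⟨a, ha⟩ : ∃ a : ℤ, a = x.num := ⟨_, rfl⟩
    obtain ⟨c, hc⟩ : ∃ c : ℤ, c = (x.den : ℤ) := ⟨_, rfl⟩
    obtain ⟨u, hu⟩ : ∃ u : ℤ, u = y.num := ⟨_, rfl⟩
    obtain ⟨v, hv⟩ : ∃ v : ℤ, v = (y.den : ℤ) := ⟨_, rfl⟩
    have ha0 : a ≠ 0 := by
      rw [ha]
      exact Rat.num_ne_zero.2 hx
    have hc0 : c ≠ 0 := by
      rw [hc]
      exact_mod_cast x.pos.ne'
    have hu0 : u ≠ 0 := by
      rw [hu]
      exact Rat.num_ne_zero.2 hy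
    have hv0 : v ≠ 0 := by
      rw [hv]
      exact_mod_cast y.pos.ne'
    have hac : IsCoprime a c := by
      rw [ha, hc, Int.isCoprime_iff_nat_coprime]
      simpa using x.reduced
    have huv : IsCoprime u v := by
      rw [hu, hv, Int.isCoprime_iff_nat_coprime]
      simpa using y.reduced
    obtain ⟨g, s0, s1, U, V, d1, d2, hg, hd1, hd2, h0, h1, hcop, hU, hV, hd1c, hd2a, hs0, hs1, hgac,
      hs00, hs10⟩ := arith n a c u v ha0 hc0 hu0 hv0 hac huv
    have hN : (x * y ^ n + 1).num = s0 * U ^ n + s1 * V ^ n :=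
      num_eq hg (by rw [← ha, ← hu]; exact h0) (by rw [← hc, ← hv]; exact h1) hcop
    have hN0' : (x * y ^ n + 1).num ≠ 0 := Rat.num_ne_zero.2 hxy
    have hU0 : U ≠ 0 := by
      rintro rfl
      rw [mul_zero] at hU
      exact hu0 hU
    have hV0 : V ≠ 0 := by
      rintro rfl
      rw [mul_zero] at hV
      exact hv0 hV
    have hn00 : n0 ≠ 0 := by
      rintro rfl
      rw [hnum] at hN0'
      simp at hN0'
    have hw0 : w ≠ 0 := by
      rintro rfl
      rw [hnum] at hN0'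
      simp at hN0'
    have hZne : ∀ i, Z i ≠ 0 := by
      intro i h
      apply hN0'
      rw [hnum, Finset.prod_eq_zero (Finset.mem_univ i) (by
        rw [h, zero_pow (by have := he i; omega)]), mul_zero]
    -- the sizes
    obtain ⟨ra, hra⟩ : ∃ ra : ℝ, ra = |(a : ℝ)| := ⟨_, rfl⟩
    obtain ⟨rc, hrc⟩ : ∃ rc : ℝ, rc = |(c : ℝ)| := ⟨_, rfl⟩
    obtain ⟨rn, hrn⟩ : ∃ rn : ℝ, rn = |(n0 : ℝ)| := ⟨_, rfl⟩
    have hra1 : 1 ≤ ra := by
      rw [hra]
      exact_mod_cast Int.one_le_abs ha0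
    have hrc1 : 1 ≤ rc := by
      rw [hrc]
      exact_mod_cast Int.one_le_abs hc0
    have hrn1 : 1 ≤ rn := by
      rw [hrn]
      exact_mod_cast Int.one_le_abs hn00
    have hra0 : 0 < ra := by linarith
    have hrc0 : 0 < rc := by linarith
    have hrn0 : 0 < rn := by linarith
    have hrac1 : 1 ≤ ra * rc := by nlinarith
    have hd1R : (d1 : ℝ) ≤ rc := by
      rw [hrc]
      exact_mod_cast hd1c
    have hd2R : (d2 : ℝ) ≤ ra := by
      rw [hra]
      exact_mod_cast hd2a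
    have hd1R1 : (1 : ℝ) ≤ d1 := by
      exact_mod_cast hd1
    have hd2R1 : (1 : ℝ) ≤ d2 := by
      exact_mod_cast hd2
    have hs0R : |(s0 : ℝ)| ≤ ra * rc ^ n := by
      rw [hra, hrc]
      exact_mod_cast hs0
    have hs1R : |(s1 : ℝ)| ≤ rc * ra ^ n := by
      rw [hra, hrc]
      exact_mod_cast hs1
    have hran : ra ≤ ra ^ n := by
      calc ra = ra ^ 1 := (pow_one _).symm
        _ ≤ ra ^ n := pow_le_pow_right₀ hra1 (by omega)
    have hrcn : rc ≤ rc ^ n := by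
      calc rc = rc ^ 1 := (pow_one _).symm
        _ ≤ rc ^ n := pow_le_pow_right₀ hrc1 (by omega)
    have hracn1 : 1 ≤ (ra * rc) ^ n := one_le_pow₀ hrac1
    have hs0t : |(s0 : ℝ)| ≤ (ra * rc) ^ n * rn := by
      have h2 : |(s0 : ℝ)| ≤ (ra * rc) ^ n := by
        rw [mul_pow]
        exact hs0R.trans (mul_le_mul_of_nonneg_right hran (by positivity))
      nlinarith
    have hs1t : |(s1 : ℝ)| ≤ (ra * rc) ^ n * rn := by
      have h2 : |(s1 : ℝ)| ≤ (ra * rc) ^ n := by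
        rw [mul_pow, mul_comm (ra ^ n)]
        exact hs1R.trans (mul_le_mul_of_nonneg_right hrcn (by positivity))
      nlinarith
    have hs2t : |((-n0 : ℤ) : ℝ)| ≤ (ra * rc) ^ n * rn := by
      push_cast
      rw [abs_neg, ← hrn]
      nlinarith
    have h1t : (1 : ℝ) ≤ (ra * rc) ^ n * rn := by nlinarith
    obtain ⟨Q, hQ⟩ : ∃ Q : ℝ, Q = (ra * rc) * ((ra * rc) ^ n * rn) := ⟨_, rfl⟩
    have hQ1 : 1 ≤ Q := by
      rw [hQ]
      nlinarith
    have hdd : (d1 : ℝ) * d2 ≤ ra * rc := by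
      rw [mul_comm ra rc]
      exact mul_le_mul hd1R hd2R (by linarith) hrc0.le
    have hddQ : (d1 : ℝ) * d2 ≤ Q := by
      rw [hQ]
      nlinarith
    have hsQ : ∀ t : ℤ, |(t : ℝ)| ≤ (ra * rc) ^ n * rn → (d1 : ℝ) * d2 * |(t : ℝ)| ≤ Q := by
      intro t ht'
      rw [hQ]
      exact mul_le_mul hdd ht' (abs_nonneg _) (by positivity)
    -- the small coefficients
    obtain ⟨N1, hN1⟩ : ∃ N1 : ℝ, N1 = max N0 1 * Real.exp (L / C2) := ⟨_, rfl⟩
    have hN11 : 1 ≤ N1 := by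
      rw [hN1]
      have h2 : (1 : ℝ) ≤ max N0 1 := le_max_right _ _
      have h3 : 1 ≤ Real.exp (L / C2) := Real.one_le_exp (div_nonneg hL0 hC20.le)
      nlinarith
    have hM1N : M1 ≤ N1 * M1 := by nlinarith
    have hNM1 : 1 ≤ N1 * M1 := hM11.trans hM1N
    obtain ⟨M, hM⟩ : ∃ M : ℝ, M = Q * (N1 * M1) := ⟨_, rfl⟩
    have hM1 : 1 ≤ M := by
      rw [hM]
      nlinarith
    have hDN : (D : ℝ) ≤ N1 * M1 := hDM1.trans hM1N
    have hsp : ∀ s : Fin 2 ⊕ Fin r, SpR Γ' (q * k) (N1 * M1)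
        (D * (((Sum.elim ![y.num, (y.den : ℤ)] Z : Fin 2 ⊕ Fin r → ℤ) s : ℤ) : ℚ)) := by
      intro s
      obtain ⟨g, c, hg, hc, hy⟩ := hdec s
      refine SpR.mul_small hle (by linarith) g c (fun i => W (s, i)) hg
        (fun i => (hc i).trans ?_) (fun i => hsp1 (s, i)) hy
      rw [hN1]
      exact mul_le_mul_of_nonneg_right (le_max_left _ _) (Real.exp_pos _).le
    obtain ⟨m1, hm1⟩ := Int.eq_ofNat_of_zero_le hd1.le
    obtain ⟨m2, hm2⟩ := Int.eq_ofNat_of_zero_le hd2.le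
    have hm1R : (m1 : ℝ) = d1 := by
      rw [hm1]
      simp
    have hm2R : (m2 : ℝ) = d2 := by
      rw [hm2]
      simp
    have hm1Q : (m1 : ℚ) = d1 := by
      rw [hm1]
      simp
    have hm2Q : (m2 : ℚ) = d2 := by
      rw [hm2]
      simp
    have hsingle : ∀ t : ℤ, |(t : ℝ)| ≤ (ra * rc) ^ n * rn →
        SpR Γ' (q * k + 1) M (((D * (m1 * m2) : ℕ) : ℚ) * (t : ℚ)) := by
      intro t ht'
      have h2 : (((D * (m1 * m2) : ℕ) : ℚ) * (t : ℚ)) = (((D : ℤ) * (d1 * d2 * t) : ℤ) : ℚ) := by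
        push_cast
        rw [hm1Q, hm2Q]
        ring
      rw [h2]
      refine SpR.single ?_
      push_cast
      rw [abs_mul, abs_mul, abs_mul, abs_of_nonneg (by linarith : (0 : ℝ) ≤ d1),
        abs_of_nonneg (by linarith : (0 : ℝ) ≤ d2), Nat.abs_cast, hM, mul_comm Q]
      exact mul_le_mul hDN (hsQ t ht') (by positivity) (by linarith)
    have hspJ : ∀ j : J r, SpR Γ' (q * k + 1) M
        (((D * (m1 * m2) : ℕ) : ℚ) * ((jX s0 s1 (-n0) U V Z j : ℤ) : ℚ)) := by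
      intro j
      rcases j with j | j | j
      · fin_cases j
        · exact hsingle s0 hs0t
        · exact hsingle s1 hs1t
        · exact hsingle (-n0) hs2t
      · fin_cases j
        · have h2 := SpR.mul_int (m := d2) (N := Q) (M' := M) (hsp (Sum.inl 0)) (by
            rw [abs_of_nonneg (by linarith : (0 : ℝ) ≤ d2), hQ]
            nlinarith) (by rw [hM])
          refine SpR.succ (by linarith) ?_
          have h3 : ((D * (m1 * m2) : ℕ) : ℚ) * (U : ℚ) = (d2 : ℚ) * ((D : ℚ) * (u : ℚ)) := by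
            rw [hU]
            push_cast
            rw [hm1Q, hm2Q]
            ring
          change SpR Γ' (q * k) M (((D * (m1 * m2) : ℕ) : ℚ) * (U : ℚ))
          rw [h3, hu]
          exact h2
        · have h2 := SpR.mul_int (m := d1) (N := Q) (M' := M) (hsp (Sum.inl 1)) (by
            rw [abs_of_nonneg (by linarith : (0 : ℝ) ≤ d1), hQ]
            nlinarith) (by rw [hM])
          refine SpR.succ (by linarith) ?_
          have h3 : ((D * (m1 * m2) : ℕ) : ℚ) * (V : ℚ) = (d1 : ℚ) * ((D : ℚ) * (v : ℚ)) := by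
            rw [hV]
            push_cast
            rw [hm1Q, hm2Q]
            ring
          change SpR Γ' (q * k) M (((D * (m1 * m2) : ℕ) : ℚ) * (V : ℚ))
          rw [h3, hv]
          exact h2
      · have h2 := SpR.mul_int (m := d1 * d2) (N := Q) (M' := M) (hsp (Sum.inr j)) (by
          push_cast
          rw [abs_of_nonneg (by positivity : (0 : ℝ) ≤ (d1 : ℝ) * d2)]
          exact hddQ) (by rw [hM])
        refine SpR.succ (by linarith) ?_
        have h3 : ((D * (m1 * m2) : ℕ) : ℚ) * (Z j : ℚ) =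
            ((d1 * d2 : ℤ) : ℚ) * ((D : ℚ) * (Z j : ℚ)) := by
          push_cast
          rw [hm1Q, hm2Q]
          ring
        change SpR Γ' (q * k) M (((D * (m1 * m2) : ℕ) : ℚ) * (Z j : ℚ))
        rw [h3]
        exact h2
    have hD'0 : 0 < D * (m1 * m2) := by
      have k1 : 0 < m1 := by omega
      have k2 : 0 < m2 := by omega
      positivity
    have hD'M : ((D * (m1 * m2) : ℕ) : ℝ) ≤ M := by
      push_cast
      rw [hm1R, hm2R, hM, mul_comm Q]
      exact mul_le_mul hDN hddQ (by positivity) (by linarith)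
    have hA0 : s0 * U ^ n ≠ 0 := mul_ne_zero hs00 (pow_ne_zero _ hU0)
    have hA1 : s1 * V ^ n ≠ 0 := mul_ne_zero hs10 (pow_ne_zero _ hV0)
    have hA2 : w * (-n0 * ∏ i, Z i ^ e i) ≠ 0 := by
      refine mul_ne_zero hw0 (mul_ne_zero (neg_ne_zero.2 hn00) ?_)
      exact Finset.prod_ne_zero_iff.2 fun i _ => pow_ne_zero _ (hZne i)
    have hsum : s0 * U ^ n + s1 * V ^ n + w * (-n0 * ∏ i, Z i ^ e i) = 0 := by
      rw [← hN, hnum]
      ring
    obtain ⟨k1, k2⟩ := hthree M hM1 _ hD'0 hD'M s0 s1 (-n0) U V w Z hspJ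
      (hw.imp fun g hg => ⟨hle hg.1, hg.2⟩) hA0 hA1 hA2 hsum hcop
    -- the logarithms
    have hla : 0 ≤ Real.log ra := Real.log_nonneg hra1
    have hlc : 0 ≤ Real.log rc := Real.log_nonneg hrc1
    have hln : 0 ≤ Real.log rn := Real.log_nonneg hrn1
    obtain ⟨S, hS⟩ : ∃ S : ℝ, S = Real.log ra + Real.log rc + Real.log rn := ⟨_, rfl⟩
    have hS0 : 0 ≤ S := by
      rw [hS]
      linarith
    have hn0R : (0 : ℝ) ≤ n := by linarith
    have hgR : (0 : ℝ) < g := by exact_mod_cast hg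
    have hlogg : Real.log g ≤ Real.log ra + Real.log rc := by
      rw [← Real.log_mul hra0.ne' hrc0.ne']
      refine Real.log_le_log hgR ?_
      rw [hra, hrc]
      exact_mod_cast hgac
    have hlogQ : Real.log Q ≤ (n + 1) * S := by
      rw [hQ, Real.log_mul (x := ra * rc) (y := (ra * rc) ^ n * rn) (by positivity)
        (by positivity), Real.log_mul (x := (ra * rc) ^ n) (y := rn) (by positivity)
        (by positivity), Real.log_pow, Real.log_mul hra0.ne' hrc0.ne', hS]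
      have k3 := mul_nonneg hn0R hln
      linarith
    have hlogM : Real.log M ≤ (Real.log (max N0 1) + L / C2) +
        (δ * (1 + L) + Real.log (B + 1)) + (n + 1) * S := by
      have k3 : Real.log M = Real.log Q + (Real.log (max N0 1) + L / C2 + Real.log M1) := by
        rw [hM, Real.log_mul (by linarith) (by linarith), Real.log_mul (by linarith)
          (by linarith), hN1, Real.log_mul (lt_of_lt_of_le one_pos (le_max_right _ _)).ne'
          (Real.exp_pos _).ne', Real.log_exp]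
      rw [k3]
      linarith
    have hlog_of : ∀ t : ℤ, t ≠ 0 → 0 < |(t : ℝ)| := fun t ht' =>
      abs_pos.2 (by exact_mod_cast ht')
    have hls0 : Real.log |(s0 : ℝ)| ≤ Real.log ra + n * Real.log rc := by
      rw [← Real.log_pow, ← Real.log_mul hra0.ne' (by positivity)]
      exact Real.log_le_log (hlog_of _ hs00) hs0R
    have hls1 : Real.log |(s1 : ℝ)| ≤ Real.log rc + n * Real.log ra := by
      rw [← Real.log_pow, ← Real.log_mul hrc0.ne' (by positivity)]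
      exact Real.log_le_log (hlog_of _ hs10) hs1R
    have hlu : Real.log |(u : ℝ)| ≤ L := by
      rw [hL, hu]
      exact log_num_le y
    have hlv : Real.log |(v : ℝ)| ≤ L := by
      rw [hL, hv]
      have k3 : |(((y.den : ℤ) : ℤ) : ℝ)| = (y.den : ℝ) := by
        rw [Int.cast_natCast, Nat.abs_cast]
      rw [k3]
      exact log_den_le y
    have hlU : Real.log |(U : ℝ)| ≤ L := by
      refine le_trans (Real.log_le_log (hlog_of _ hU0) ?_) hlu
      have k3 : |(u : ℝ)| = d1 * |(U : ℝ)| := by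
        rw [hU]
        push_cast
        rw [abs_mul, abs_of_nonneg (by linarith : (0 : ℝ) ≤ d1)]
      rw [k3]
      exact le_mul_of_one_le_left (abs_nonneg _) hd1R1
    have hlV : Real.log |(V : ℝ)| ≤ L := by
      refine le_trans (Real.log_le_log (hlog_of _ hV0) ?_) hlv
      have k3 : |(v : ℝ)| = d2 * |(V : ℝ)| := by
        rw [hV]
        push_cast
        rw [abs_mul, abs_of_nonneg (by linarith : (0 : ℝ) ≤ d2)]
      rw [k3]
      exact le_mul_of_one_le_left (abs_nonneg _) hd2R1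
    have hprod : Real.log (∏ j, |(jX s0 s1 (-n0) U V Z j : ℝ)|) ≤
        (n + 1) * S + 2 * L + ∑ i, Real.log |(Z i : ℝ)| := by
      have hjne : ∀ j : J r, |(jX s0 s1 (-n0) U V Z j : ℝ)| ≠ 0 := by
        intro j
        refine (hlog_of _ ?_).ne'
        rcases j with j | j | j
        · fin_cases j
          · exact hs00
          · exact hs10
          · exact neg_ne_zero.2 hn00
        · fin_cases j
          · exact hU0
          · exact hV0
        · exact hZne j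
      rw [Real.log_prod fun j _ => hjne j, Fintype.sum_sum_type, Fintype.sum_sum_type,
        Fin.sum_univ_three, Fin.sum_univ_two]
      change Real.log |(s0 : ℝ)| + Real.log |(s1 : ℝ)| + Real.log |((-n0 : ℤ) : ℝ)| +
        (Real.log |(U : ℝ)| + Real.log |(V : ℝ)| + ∑ i, Real.log |(Z i : ℝ)|) ≤ _
      have k3 : |((-n0 : ℤ) : ℝ)| = rn := by
        push_cast
        rw [abs_neg, hrn]
      rw [k3, hS]
      have k4 := mul_nonneg hn0R hln
      linarith
    have hSK : S ≤ 3 * K1 + 3 * (L / C2) := by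
      have k3 : Real.log ra ≤ ht x := by
        rw [hra, ha]
        exact log_num_le x
      have k4 : Real.log rc ≤ ht x := by
        rw [hrc, hc, Int.cast_natCast, Nat.abs_cast]
        exact log_den_le x
      have k5 : Real.log rn ≤ K1 + L / C2 := by
        rw [hrn]
        exact hln0
      rw [hS]
      linarith
    have htZ : 0 ≤ ∑ i, Real.log |(Z i : ℝ)| := Finset.sum_nonneg fun i _ => log_abs_nonneg _
    have hlM0 : 0 ≤ 1 + Real.log M := by
      have := Real.log_nonneg hM1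
      linarith
    have hC1M : C1 * (1 + Real.log M) ≤ c1 * (1 + Real.log M) :=
      mul_le_mul_of_nonneg_right hC1c hlM0
    rcases le_total |(v : ℝ)| |(u : ℝ)| with hvu | hvu
    · have k3 : L = Real.log |(u : ℝ)| := by
        rw [hL, hu]
        unfold ht
        rw [max_eq_left]
        rw [hu, hv, Int.cast_natCast, Nat.abs_cast] at hvu
        exact hvu
      have k4 : Real.log ra + n * L = Real.log g + Real.log |((s0 * U ^ n : ℤ) : ℝ)| := by
        have k5 : ra * |(u : ℝ)| ^ n = g * |((s0 * U ^ n : ℤ) : ℝ)| := by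
          have k6 : (a : ℝ) * (u : ℝ) ^ n = (g : ℝ) * ((s0 * U ^ n : ℤ) : ℝ) := by
            exact_mod_cast h0
          have k7 := congrArg abs k6
          rw [abs_mul, abs_mul, abs_pow, abs_of_pos hgR] at k7
          rw [hra]
          exact k7
        rw [k3, ← Real.log_pow, ← Real.log_mul hra0.ne' (pow_pos (hlog_of _ hu0) _).ne', k5,
          Real.log_mul hgR.ne' (hlog_of _ hA0).ne']
      refine numeric hnR hL0 hc11 hδ1 hC20 hC2c hC24 hC2K hSK hK2 htZ hlogM ?_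
        (k1.trans (add_le_add hC1M hprod)) hS0
      rw [hS]
      linarith
    · have k3 : L = Real.log |(v : ℝ)| := by
        rw [hL, hv, Int.cast_natCast, Nat.abs_cast]
        unfold ht
        rw [max_eq_right]
        rw [hu, hv, Int.cast_natCast, Nat.abs_cast] at hvu
        exact hvu
      have k4 : Real.log rc + n * L = Real.log g + Real.log |((s1 * V ^ n : ℤ) : ℝ)| := by
        have k5 : rc * |(v : ℝ)| ^ n = g * |((s1 * V ^ n : ℤ) : ℝ)| := by
          have k6 : (c : ℝ) * (v : ℝ) ^ n = (g : ℝ) * ((s1 * V ^ n : ℤ) : ℝ) := by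
            exact_mod_cast h1
          have k7 := congrArg abs k6
          rw [abs_mul, abs_mul, abs_pow, abs_of_pos hgR] at k7
          rw [hrc]
          exact k7
        rw [k3, ← Real.log_pow, ← Real.log_mul hrc0.ne' (pow_pos (hlog_of _ hv0) _).ne', k5,
          Real.log_mul hgR.ne' (hlog_of _ hA1).ne']
      refine numeric hnR hL0 hc11 hδ1 hC20 hC2c hC24 hC2K hSK hK2 htZ hlogM ?_
        (k2.trans (add_le_add hC1M hprod)) hS0
      rw [hS]
      linarith)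
  exact ⟨C, fun P h1 h2 h3 h4 h5 h6 hw h7 h8 =>
    hC P (fun s => CompR.one (hw s)) trivial h1 h2 h3 h4 h5 h6 h7 h8⟩

end Pool.Agent.K3h2.PA
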